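import Mathlib
import Pool.Agent.H.MP_af7c6a_co.A

set_option autoImplicit false

namespace Pool.Agent.Results.MP_af7c6a_co.Super

open Pool.Agent.H.MP_af7c6a_co in
theorem result : ∃ (d : ℕ) (N : (Fin d → ℝ) → ℝ), 1 ≤ d ∧
    (∀ x y, N (x + y) ≤ N x + N y) ∧ (∀ (c : ℝ) x, N (c • x) = |c| * N x) ∧
    (∀ x, N x = 0 → x = 0) ∧
    ∀ δ : ℝ, δ < 1 / 2 → ∀ C : ℝ, ∃ X₀ : ℝ, ∀ X ≥ X₀,
      ∃ (n : ℕ) (p : Fin n → Fin d → ℝ) (c : Fin d → ℝ), C * X ≤ n ∧ (∀ i, N (p i - c) ≤ X) ∧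
        ∀ i j, i ≠ j → ∀ z : ℤ, δ ≤ |N (p i - p j) - z| := by
  obtain ⟨N, n1, n2, n3, h⟩ := main
  let e : Fin 2 × I ≃ Fin 126 := Fintype.equivFinOfCardEq (by simp)
  let L : (Fin 126 → ℝ) ≃ₗ[ℝ] EuclideanSpace ℝ (Fin 2 × I) :=
    (LinearEquiv.funCongrLeft ℝ ℝ e).trans (WithLp.linearEquiv 2 ℝ _).symm
  refine ⟨126, fun x => N (L x), by norm_num, fun x y => by simp only [map_add]; exact n1 _ _,
    fun c x => by simp only [map_smul]; exact n2 _ _, fun x hx => ?_, fun δ hδ C => ?_⟩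
  · have := (n3 (L x)).trans_eq hx
    exact L.map_eq_zero_iff.1 (norm_le_zero_iff.1 this)
  · obtain ⟨X0, hX⟩ := h C
    refine ⟨X0, fun X hX' => ?_⟩
    obtain ⟨n, p, h1, h2, h3⟩ := hX X hX'
    refine ⟨n, fun i => L.symm (p i), 0, h1, fun i => by simpa using h2 i, fun i j hij z => ?_⟩
    obtain ⟨w, hw⟩ := h3 i j hij
    simp only [map_sub, LinearEquiv.apply_symm_apply, hw]
    rcases le_or_gt z w with q | q
    · have : (z : ℝ) ≤ w := by exact_mod_cast q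
      exact le_abs.2 (Or.inl (by linarith))
    · have : (w : ℝ) + 1 ≤ z := by exact_mod_cast q
      exact le_abs.2 (Or.inr (by linarith))

end Pool.Agent.Results.MP_af7c6a_co.Super
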